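import Pool.Agent.N720.SL.Stm

/-! # Project CY (helper720), GAU (helper327): Gaussian averages of the square of a Fourier transform -/

set_option autoImplicit false

namespace Pool.Agent.N327.CY_GAU

open MeasureTheory Set Metric Complex
open scoped ENNReal NNReal RealInnerProductSpace
open Pool.Agent.N720.SL

theorem ex_add (s t : ℝ) : ex (s + t) = ex s * ex t := by
  unfold ex
  rw [← Complex.exp_add]
  congr 1
  push_cast
  ring

theorem ex_norm (t : ℝ) : ‖ex t‖ = 1 := by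
  unfold ex
  exact Complex.norm_exp_ofReal_mul_I _

theorem ex_conj (t : ℝ) : (starRingEnd ℂ) (ex t) = ex (-t) := by
  unfold ex
  rw [← Complex.exp_conj, map_mul, Complex.conj_ofReal, Complex.conj_I]
  congr 1
  push_cast
  ring

theorem ex_cont : Continuous ex := by
  unfold ex
  fun_prop

/-- the square of the Fourier transform as a double integral -/
theorem sq_eq {k : ℕ} (ν : Measure (E k)) (g : E k → ℂ) [SFinite ν] (w : E k) :
    ((‖hat ν g w‖ ^ 2 : ℝ) : ℂ) =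
      ∫ p : E k × E k, g p.1 * (starRingEnd ℂ) (g p.2) * ex ⟪w, p.1 - p.2⟫ ∂(ν.prod ν) := by
  have h1 : ((‖hat ν g w‖ ^ 2 : ℝ) : ℂ) = hat ν g w * (starRingEnd ℂ) (hat ν g w) := by
    rw [Complex.mul_conj, Complex.normSq_eq_norm_sq]
  rw [h1]
  unfold hat
  rw [← integral_conj, ← integral_prod_mul]
  apply integral_congr_ae
  refine Filter.Eventually.of_forall fun p => ?_
  simp only [map_mul, ex_conj, inner_sub_right]
  rw [sub_eq_add_neg, ex_add]
  ring

/-- the Fourier transform of a Gaussian -/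
theorem gauss {k : ℕ} (c z : E k) {l : ℝ} (hl : 0 < l) :
    ∫ w : E k, ((Real.exp (-(Real.pi * ‖w - c‖ ^ 2 / l ^ 2)) : ℝ) : ℂ) * ex ⟪w, z⟫ =
      ex ⟪c, z⟫ * ((l ^ k * Real.exp (-(Real.pi * l ^ 2 * ‖z‖ ^ 2)) : ℝ) : ℂ) := by
  have hpi := Real.pi_pos
  rw [← integral_add_right_eq_self _ c]
  set b : ℂ := ((Real.pi / l ^ 2 : ℝ) : ℂ) with hb
  have hb0 : 0 < b.re := by
    rw [hb, Complex.ofReal_re]; positivity
  have h1 := GaussianFourier.integral_cexp_neg_mul_sq_norm_add (V := E k) hb0 (2 * Real.pi * Complex.I) z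
  have h2 : ∀ u : E k, ((Real.exp (-(Real.pi * ‖u + c - c‖ ^ 2 / l ^ 2)) : ℝ) : ℂ) * ex ⟪u + c, z⟫ =
      ex ⟪c, z⟫ * cexp (-b * ‖u‖ ^ 2 + (2 * Real.pi * Complex.I) * ⟪z, u⟫) := by
    intro u
    rw [add_sub_cancel_right, inner_add_left, ex_add, Complex.exp_add, real_inner_comm z u]
    have e1 : ((Real.exp (-(Real.pi * ‖u‖ ^ 2 / l ^ 2)) : ℝ) : ℂ) = cexp (-b * ‖u‖ ^ 2) := by
      rw [Complex.ofReal_exp, hb]
      congr 1
      push_cast
      ring
    have e2 : ex ⟪z, u⟫ = cexp ((2 * Real.pi * Complex.I) * (⟪z, u⟫ : ℝ)) := by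
      unfold ex
      congr 1
      push_cast
      ring
    rw [e1, e2]
    ring
  simp_rw [h2]
  rw [integral_const_mul, h1]
  congr 1
  have hne : ((l : ℂ)) ≠ 0 := by exact_mod_cast hl.ne'
  have hpine : (Real.pi : ℂ) ≠ 0 := by exact_mod_cast hpi.ne'
  have e3 : ((Real.pi : ℂ) / b) = ((l ^ 2 : ℝ) : ℂ) := by
    rw [hb]
    push_cast
    field_simp
  have e4 : ((Real.pi : ℂ) / b) ^ ((Module.finrank ℝ (E k) : ℂ) / 2) = ((l ^ k : ℝ) : ℂ) := by
    rw [e3]
    have hk : ((Module.finrank ℝ (E k) : ℂ) / 2) = (((k : ℝ) / 2 : ℝ) : ℂ) := by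
      rw [finrank_euclideanSpace, Fintype.card_fin]
      push_cast
      rfl
    rw [hk, ← Complex.ofReal_cpow (by positivity)]
    congr 1
    rw [← Real.rpow_natCast l 2, ← Real.rpow_mul hl.le, ← Real.rpow_natCast l k]
    congr 1
    push_cast
    ring
  rw [e4]
  push_cast
  congr 2
  have : (2 * (Real.pi : ℂ) * Complex.I) ^ 2 = -(4 * Real.pi ^ 2) := by
    rw [mul_pow, mul_pow, Complex.I_sq]; ring
  rw [this, hb]
  push_cast
  field_simp

theorem main : S_GAU := by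
  intro k ν g hν hg hgi c l hl
  have hpi := Real.pi_pos
  have hgauss : Integrable (fun w : E k => ((Real.exp (-(Real.pi * ‖w - c‖ ^ 2 / l ^ 2)) : ℝ) : ℂ)) volume := by
    have hb0 : 0 < (((Real.pi / l ^ 2 : ℝ) : ℂ)).re := by
      rw [Complex.ofReal_re]; positivity
    have h1 := GaussianFourier.integrable_cexp_neg_mul_sq_norm_add (V := E k) hb0 0 0
    have h2 := h1.comp_sub_right c
    refine h2.congr (Filter.Eventually.of_forall fun w => ?_)
    simp only [zero_mul, add_zero]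
    rw [Complex.ofReal_exp]
    congr 1
    push_cast
    ring
  have hgg : Integrable (fun p : E k × E k => g p.1 * (starRingEnd ℂ) (g p.2)) (ν.prod ν) := by
    refine hgi.mul_prod (g := fun y => (starRingEnd ℂ) (g y)) ?_
    exact (Complex.conjLIE.toLinearIsometry.toContinuousLinearMap.integrable_comp hgi)
  have hbig : Integrable (Function.uncurry fun (w : E k) (p : E k × E k) =>
      ((Real.exp (-(Real.pi * ‖w - c‖ ^ 2 / l ^ 2)) : ℝ) : ℂ) *
        (g p.1 * (starRingEnd ℂ) (g p.2) * ex ⟪w, p.1 - p.2⟫)) (volume.prod (ν.prod ν)) := by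
    have h1 := hgauss.mul_prod hgg
    have hm : AEStronglyMeasurable (fun q : E k × (E k × E k) => ex ⟪q.1, q.2.1 - q.2.2⟫)
        (volume.prod (ν.prod ν)) := by
      apply Continuous.aestronglyMeasurable
      exact ex_cont.comp (by fun_prop)
    have h2 := h1.mul_bdd (c := 1) hm (Filter.Eventually.of_forall fun q => (ex_norm _).le)
    refine h2.congr (Filter.Eventually.of_forall fun q => ?_)
    simp only [Function.uncurry]
    ring
  rw [← integral_complex_ofReal]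
  have e1 : ∀ w : E k, (((Real.exp (-(Real.pi * ‖w - c‖ ^ 2 / l ^ 2)) * ‖hat ν g w‖ ^ 2 : ℝ)) : ℂ) =
      ∫ p : E k × E k, ((Real.exp (-(Real.pi * ‖w - c‖ ^ 2 / l ^ 2)) : ℝ) : ℂ) *
        (g p.1 * (starRingEnd ℂ) (g p.2) * ex ⟪w, p.1 - p.2⟫) ∂(ν.prod ν) := by
    intro w
    rw [Complex.ofReal_mul, sq_eq ν g w, integral_const_mul]
  have e1' : (∫ w : E k, (((Real.exp (-(Real.pi * ‖w - c‖ ^ 2 / l ^ 2)) * ‖hat ν g w‖ ^ 2 : ℝ)) : ℂ)) =
      ∫ w : E k, ∫ p : E k × E k, ((Real.exp (-(Real.pi * ‖w - c‖ ^ 2 / l ^ 2)) : ℝ) : ℂ) *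
        (g p.1 * (starRingEnd ℂ) (g p.2) * ex ⟪w, p.1 - p.2⟫) ∂(ν.prod ν) :=
    integral_congr_ae (Filter.Eventually.of_forall fun w => e1 w)
  refine e1'.trans ?_
  rw [integral_integral_swap hbig]
  apply integral_congr_ae
  refine Filter.Eventually.of_forall fun p => ?_
  have e2 : ∀ w : E k, ((Real.exp (-(Real.pi * ‖w - c‖ ^ 2 / l ^ 2)) : ℝ) : ℂ) *
        (g p.1 * (starRingEnd ℂ) (g p.2) * ex ⟪w, p.1 - p.2⟫) =
      (g p.1 * (starRingEnd ℂ) (g p.2)) * (((Real.exp (-(Real.pi * ‖w - c‖ ^ 2 / l ^ 2)) : ℝ) : ℂ) *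
        ex ⟪w, p.1 - p.2⟫) := by
    intro w
    ring
  simp only
  simp_rw [e2]
  rw [integral_const_mul, gauss c (p.1 - p.2) hl]

end Pool.Agent.N327.CY_GAU
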