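import Pool.Agent.N646.SF.Stm

/-! # Project SF (helper646), CNT (helper327): counting the solutions -/

set_option autoImplicit false

namespace Pool.Agent.N327.SF_CNT

open Finset Pool.Agent.N646.SF

theorem shift_count (a : ℤ) (T : ℕ) (D : Finset ℤ) (hD : D ⊆ Ico a (a + T)) (v : ℤ) :
    D.card ≤ ((Ico a (a + T)).filter (fun s => s + v ∈ D)).card + v.natAbs := by
  have h1 : D ⊆ ((Ico a (a + T)).filter (fun s => s + v ∈ D)).image (fun s => s + v) ∪
      (if 0 ≤ v then Ico a (a + v) else Ico (a + T + v) (a + T)) := by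
    intro d hd
    have hd' := Finset.mem_Ico.1 (hD hd)
    rw [Finset.mem_union]
    by_cases hs : a ≤ d - v ∧ d - v < a + T
    · left
      rw [Finset.mem_image]
      refine ⟨d - v, ?_, by ring⟩
      rw [Finset.mem_filter, Finset.mem_Ico]
      exact ⟨hs, by rw [sub_add_cancel]; exact hd⟩
    · right
      by_cases hv : 0 ≤ v
      · rw [if_pos hv, Finset.mem_Ico]
        omega
      · rw [if_neg hv, Finset.mem_Ico]
        omega
  refine (Finset.card_le_card h1).trans ((Finset.card_union_le _ _).trans ?_)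
  refine add_le_add Finset.card_image_le ?_
  by_cases hv : 0 ≤ v
  · rw [if_pos hv, Int.card_Ico]
    omega
  · rw [if_neg hv, Int.card_Ico]
    omega

/-- the set of the sums `s` for which everything is fine -/
theorem E_card {k : ℕ} (a : ℤ) (T : ℕ) (D : Finset ℤ) (hD : D ⊆ Ico a (a + T)) (θ ζ κ : ℝ)
    (hκ : 2 * κ = 1 - (k + 1) * θ) (hc : (1 - θ) * T ≤ D.card) (v : Fin (k + 1) → ℤ)
    (hv : ∀ j, |(v j : ℝ)| ≤ ζ) (hζ : (k + 1) * ζ ≤ κ * T) :
    κ * T ≤ (((Ico a (a + T)).filter (fun s => ∀ j, s + v j ∈ D)).card : ℝ) := by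
  have h1 : Ico a (a + T) ⊆ (Ico a (a + T)).filter (fun s => ∀ j, s + v j ∈ D) ∪
      (univ : Finset (Fin (k + 1))).biUnion (fun j => (Ico a (a + T)).filter (fun s => ¬ (s + v j ∈ D))) := by
    intro s hs
    rw [Finset.mem_union]
    by_cases h : ∀ j, s + v j ∈ D
    · left
      rw [Finset.mem_filter]
      exact ⟨hs, h⟩
    · right
      push Not at h
      obtain ⟨j, hj⟩ := h
      rw [Finset.mem_biUnion]
      exact ⟨j, Finset.mem_univ _, by rw [Finset.mem_filter]; exact ⟨hs, hj⟩⟩
  have h2 : T ≤ ((Ico a (a + T)).filter (fun s => ∀ j, s + v j ∈ D)).card +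
      ∑ j : Fin (k + 1), ((Ico a (a + T)).filter (fun s => ¬ (s + v j ∈ D))).card := by
    have := Finset.card_le_card h1
    rw [Int.card_Ico] at this
    have e : (a + (T : ℤ) - a).toNat = T := by omega
    rw [e] at this
    exact this.trans ((Finset.card_union_le _ _).trans (add_le_add le_rfl Finset.card_biUnion_le))
  have h3 : ∀ j : Fin (k + 1), (((Ico a (a + T)).filter (fun s => ¬ (s + v j ∈ D))).card : ℝ) ≤ θ * T + ζ := by
    intro j
    have h4 := shift_count a T D hD (v j)
    have h5 := Finset.card_filter_add_card_filter_not (s := Ico a (a + (T : ℤ))) (fun s => s + v j ∈ D)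
    rw [Int.card_Ico] at h5
    have e : (a + (T : ℤ) - a).toNat = T := by omega
    rw [e] at h5
    have h6 : ((v j).natAbs : ℝ) = |(v j : ℝ)| := by
      rw [Nat.cast_natAbs, Int.cast_abs]
    have h7 := hv j
    have h4' : (D.card : ℝ) ≤ (((Ico a (a + T)).filter (fun s => s + v j ∈ D)).card : ℝ) + ((v j).natAbs : ℝ) := by
      exact_mod_cast h4
    have h5' : (((Ico a (a + T)).filter (fun s => s + v j ∈ D)).card : ℝ) +
        (((Ico a (a + T)).filter (fun s => ¬ (s + v j ∈ D))).card : ℝ) = T := by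
      exact_mod_cast h5
    rw [h6] at h4'
    linarith
  have h2' : (T : ℝ) ≤ (((Ico a (a + T)).filter (fun s => ∀ j, s + v j ∈ D)).card : ℝ) +
      ∑ j : Fin (k + 1), (((Ico a (a + T)).filter (fun s => ¬ (s + v j ∈ D))).card : ℝ) := by
    exact_mod_cast h2
  have h8 : ∑ j : Fin (k + 1), (((Ico a (a + T)).filter (fun s => ¬ (s + v j ∈ D))).card : ℝ) ≤
      (k + 1) * (θ * T + ζ) := by
    refine (Finset.sum_le_sum fun j _ => h3 j).trans ?_
    rw [Finset.sum_const, Finset.card_univ, Fintype.card_fin, nsmul_eq_mul]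
    push_cast
    exact le_rfl
  have h9 : (k + 1) * θ * (T : ℝ) = T - 2 * κ * T := by
    have : (k + 1) * θ = 1 - 2 * κ := by linarith
    rw [this]; ring
  nlinarith

/-- the solutions -/
def ZZ {k : ℕ} (p : ℕ) (X : Finset ℤ) (v : Fin (k + 1) → ℤ) : Finset (Fin (k + 1) → Fin p → ℤ) :=
  (Fintype.piFinset (fun _ : Fin (k + 1) => Fintype.piFinset (fun _ : Fin p => X))).filter
    (fun x => ∀ j, ∑ i, x j i = ∑ i, x 0 i + v j)

/-- lower bound for the number of solutions -/
theorem ZZ_card {k : ℕ} (p : ℕ) (X : Finset ℤ) (v : Fin (k + 1) → ℤ) (hv0 : v 0 = 0) (E : Finset ℤ) (B : ℝ)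
    (hB : 0 ≤ B) (hE : ∀ s ∈ E, ∀ j, B ≤ (sums p X (s + v j) : ℝ)) :
    (E.card : ℝ) * B ^ (k + 1) ≤ ((ZZ p X v).card : ℝ) := by
  set Zs : ℤ → Finset (Fin (k + 1) → Fin p → ℤ) := fun s =>
    Fintype.piFinset (fun j : Fin (k + 1) => (Fintype.piFinset (fun _ : Fin p => X)).filter
      (fun u => ∑ i, u i = s + v j)) with hZs
  have hsum : ∀ s, ∀ x ∈ Zs s, ∑ i, x 0 i = s := by
    intro s x hx
    rw [hZs] at hx
    simp only [Fintype.mem_piFinset, Finset.mem_filter] at hx
    have := (hx 0).2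
    rw [hv0, add_zero] at this
    exact this
  have hsub : E.biUnion Zs ⊆ ZZ p X v := by
    intro x hx
    rw [Finset.mem_biUnion] at hx
    obtain ⟨s, _, hx⟩ := hx
    have h0 := hsum s x hx
    unfold ZZ
    rw [Finset.mem_filter]
    rw [hZs] at hx
    simp only [Fintype.mem_piFinset, Finset.mem_filter] at hx ⊢
    refine ⟨fun j => (hx j).1, fun j => ?_⟩
    rw [(hx j).2, h0]
  have hdisj : ∀ s ∈ E, ∀ s' ∈ E, s ≠ s' → Disjoint (Zs s) (Zs s') := by
    intro s _ s' _ hne
    rw [Finset.disjoint_left]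
    intro x hx hx'
    exact hne ((hsum s x hx).symm.trans (hsum s' x hx'))
  have hcard : (E.biUnion Zs).card = ∑ s ∈ E, (Zs s).card := Finset.card_biUnion hdisj
  have h1 : ∀ s ∈ E, B ^ (k + 1) ≤ ((Zs s).card : ℝ) := by
    intro s hs
    rw [hZs]
    simp only
    rw [Fintype.card_piFinset]
    push_cast
    calc B ^ (k + 1) = ∏ _j : Fin (k + 1), B := by simp
      _ ≤ ∏ j : Fin (k + 1), ((((Fintype.piFinset (fun _ : Fin p => X)).filter
          (fun u => ∑ i, u i = s + v j)).card : ℕ) : ℝ) := by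
        apply Finset.prod_le_prod
        · intro _ _; exact hB
        · intro j _; exact hE s hs j
  calc (E.card : ℝ) * B ^ (k + 1) = ∑ s ∈ E, B ^ (k + 1) := by rw [Finset.sum_const, nsmul_eq_mul]
    _ ≤ ∑ s ∈ E, ((Zs s).card : ℝ) := Finset.sum_le_sum h1
    _ = ((E.biUnion Zs).card : ℝ) := by rw [hcard]; push_cast; rfl
    _ ≤ _ := by exact_mod_cast Finset.card_le_card hsub

/-- tuples with one fixed coordinate -/
theorem card_pi_one {n : ℕ} (X : Finset ℤ) (i : Fin (n + 1)) :
    (Fintype.piFinset (fun i' : Fin (n + 1) => if i' = i then ({0} : Finset ℤ) else X)).card = X.card ^ n := by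
  rw [Fintype.card_piFinset]
  have : ∀ i' : Fin (n + 1), (if i' = i then ({0} : Finset ℤ) else X).card = if i' = i then 1 else X.card := by
    intro i'; split_ifs <;> simp
  simp_rw [this]
  rw [Finset.prod_ite, Finset.prod_const_one, one_mul, Finset.prod_const]
  congr 1
  have := Finset.card_filter_add_card_filter_not (s := (univ : Finset (Fin (n + 1)))) (fun i' => i' = i)
  rw [Finset.filter_eq' univ i, if_pos (Finset.mem_univ i), Finset.card_singleton, Finset.card_univ, Fintype.card_fin] at this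
  omega

/-- tuples with two fixed coordinates -/
theorem card_pi_two {n : ℕ} (X : Finset ℤ) (i i₁ : Fin (n + 2)) (h : i ≠ i₁) :
    (Fintype.piFinset (fun i' : Fin (n + 2) => if i' = i ∨ i' = i₁ then ({0} : Finset ℤ) else X)).card =
      X.card ^ n := by
  rw [Fintype.card_piFinset]
  have : ∀ i' : Fin (n + 2), (if i' = i ∨ i' = i₁ then ({0} : Finset ℤ) else X).card =
      if i' = i ∨ i' = i₁ then 1 else X.card := by
    intro i'; split_ifs <;> simp
  simp_rw [this]
  rw [Finset.prod_ite, Finset.prod_const_one, one_mul, Finset.prod_const]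
  congr 1
  have h1 := Finset.card_filter_add_card_filter_not (s := (univ : Finset (Fin (n + 2)))) (fun i' => i' = i ∨ i' = i₁)
  have h2 : (univ : Finset (Fin (n + 2))).filter (fun i' => i' = i ∨ i' = i₁) = {i, i₁} := by
    ext x; simp
  rw [h2, Finset.card_pair h, Finset.card_univ, Fintype.card_fin] at h1
  omega

/-- tuples which are not injective -/
theorem card_not_inj {k : ℕ} (X : Finset ℤ) :
    ((Fintype.piFinset (fun _ : Fin (k + 1) => X)).filter (fun y => ¬ Function.Injective y)).card ≤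
      (k + 1) ^ 2 * X.card ^ k := by
  have h1 : (Fintype.piFinset (fun _ : Fin (k + 1) => X)).filter (fun y => ¬ Function.Injective y) ⊆
      (univ : Finset (Fin (k + 1) × Fin (k + 1))).biUnion (fun jj =>
        (Fintype.piFinset (fun _ : Fin (k + 1) => X)).filter (fun y => jj.1 ≠ jj.2 ∧ y jj.1 = y jj.2)) := by
    intro y hy
    rw [Finset.mem_filter] at hy
    obtain ⟨hy, hni⟩ := hy
    unfold Function.Injective at hni
    push Not at hni
    obtain ⟨j, j', he, hne⟩ := hni
    rw [Finset.mem_biUnion]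
    exact ⟨(j, j'), Finset.mem_univ _, by rw [Finset.mem_filter]; exact ⟨hy, hne, he⟩⟩
  refine (Finset.card_le_card h1).trans (Finset.card_biUnion_le.trans ?_)
  have h2 : ∀ jj ∈ (univ : Finset (Fin (k + 1) × Fin (k + 1))),
      ((Fintype.piFinset (fun _ : Fin (k + 1) => X)).filter (fun y => jj.1 ≠ jj.2 ∧ y jj.1 = y jj.2)).card ≤
        X.card ^ k := by
    rintro ⟨j, j'⟩ _
    rw [← card_pi_one X j]
    apply Finset.card_le_card_of_injOn (fun y => Function.update y j 0)
    · intro y hy
      rw [Finset.mem_coe, Finset.mem_filter, Fintype.mem_piFinset] at hy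
      rw [Finset.mem_coe, Fintype.mem_piFinset]
      intro i'
      by_cases hi : i' = j
      · rw [if_pos hi, hi]; dsimp only; rw [Function.update_self]; simp
      · rw [if_neg hi]; dsimp only; rw [Function.update_of_ne hi]; exact hy.1 i'
    · intro y hy y' hy' h
      rw [Finset.mem_coe, Finset.mem_filter] at hy hy'
      have h3 : ∀ i', i' ≠ j → y i' = y' i' := by
        intro i' hi
        have := congrFun h i'
        simp only [Function.update_of_ne hi] at this
        exact this
      funext i'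
      by_cases hi : i' = j
      · rw [hi]
        have e1 := hy.2.2
        have e2 := hy'.2.2
        simp only at e1 e2
        rw [e1, e2]
        exact h3 j' (Ne.symm hy.2.1)
      · exact h3 i' hi
  refine (Finset.sum_le_sum h2).trans ?_
  rw [Finset.sum_const, Finset.card_univ, Fintype.card_prod, Fintype.card_fin, smul_eq_mul]
  apply le_of_eq
  ring

/-- solutions with a bad tuple at the place `i` -/
theorem card_bad {k q : ℕ} (X : Finset ℤ) (v : Fin (k + 1) → ℤ) (i : Fin (q + 2)) (S : Finset (Fin (k + 1) → ℤ)) :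
    ((ZZ (q + 2) X v).filter (fun x => (fun j => x j i) ∈ S)).card ≤
      S.card * (X.card ^ (q + 1) * (X.card ^ q) ^ k) := by
  obtain ⟨i₁, hi₁⟩ : ∃ i₁ : Fin (q + 2), i ≠ i₁ := by
    by_cases h : i = 0
    · exact ⟨1, by rw [h]; simp⟩
    · exact ⟨0, h⟩
  rw [← card_pi_one X i, ← card_pi_two X i i₁ hi₁]
  have e : (Fintype.piFinset (fun i' : Fin (q + 2) => if i' = i ∨ i' = i₁ then ({0} : Finset ℤ) else X)).card ^ k =
      (Fintype.piFinset (fun _ : Fin k => Fintype.piFinset
        (fun i' : Fin (q + 2) => if i' = i ∨ i' = i₁ then ({0} : Finset ℤ) else X))).card := by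
    rw [Fintype.card_piFinset]; simp
  rw [e, ← Finset.card_product, ← Finset.card_product]
  apply Finset.card_le_card_of_injOn (fun x => ((fun j => x j i), (Function.update (x 0) i 0),
    (fun (j : Fin k) (i' : Fin (q + 2)) => if i' = i ∨ i' = i₁ then 0 else x j.succ i')))
  · intro x hx
    rw [Finset.mem_coe, Finset.mem_filter] at hx
    obtain ⟨hx, hS⟩ := hx
    unfold ZZ at hx
    rw [Finset.mem_filter] at hx
    simp only [Fintype.mem_piFinset] at hx
    rw [Finset.mem_coe, Finset.mem_product, Finset.mem_product]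
    refine ⟨hS, ?_, ?_⟩
    · rw [Fintype.mem_piFinset]
      intro i'
      by_cases hi : i' = i
      · rw [if_pos hi, hi]; dsimp only; rw [Function.update_self]; simp
      · rw [if_neg hi]; dsimp only; rw [Function.update_of_ne hi]; exact hx.1 0 i'
    · rw [Fintype.mem_piFinset]
      intro j
      rw [Fintype.mem_piFinset]
      intro i'
      by_cases hi : i' = i ∨ i' = i₁
      · rw [if_pos hi]; simp only [if_pos hi]; simp
      · rw [if_neg hi]; simp only [if_neg hi]; exact hx.1 j.succ i'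
  · intro x hx x' hx' h
    rw [Finset.mem_coe, Finset.mem_filter] at hx hx'
    have hx1 := hx.1
    have hx1' := hx'.1
    unfold ZZ at hx1 hx1'
    rw [Finset.mem_filter] at hx1 hx1'
    simp only [Prod.mk.injEq] at h
    obtain ⟨ha, hb, hc⟩ := h
    have ha' : ∀ j, x j i = x' j i := fun j => congrFun ha j
    have h0 : ∀ i', x 0 i' = x' 0 i' := by
      intro i'
      by_cases hi : i' = i
      · rw [hi]; exact ha' 0
      · have := congrFun hb i'
        simp only [Function.update_of_ne hi] at this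
        exact this
    have h1 : ∀ j : Fin k, ∀ i', i' ≠ i₁ → x j.succ i' = x' j.succ i' := by
      intro j i' hi
      by_cases hi2 : i' = i
      · rw [hi2]; exact ha' _
      · have := congrFun (congrFun hc j) i'
        have hno : ¬ (i' = i ∨ i' = i₁) := by tauto
        simp only [if_neg hno] at this
        exact this
    have h2 : ∀ j : Fin k, x j.succ i₁ = x' j.succ i₁ := by
      intro j
      have e1 := hx1.2 j.succ
      have e2 := hx1'.2 j.succ
      have e3 : ∑ i', x 0 i' = ∑ i', x' 0 i' := Finset.sum_congr rfl fun i' _ => h0 i'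
      have e4 : ∑ i', x j.succ i' = ∑ i', x' j.succ i' := by rw [e1, e2, e3]
      rw [← Finset.add_sum_erase _ _ (Finset.mem_univ i₁), ← Finset.add_sum_erase _ _ (Finset.mem_univ i₁)] at e4
      have e5 : ∑ i' ∈ univ.erase i₁, x j.succ i' = ∑ i' ∈ univ.erase i₁, x' j.succ i' := by
        apply Finset.sum_congr rfl
        intro i' hi'
        exact h1 j i' (Finset.ne_of_mem_erase hi')
      rw [e5] at e4
      exact add_right_cancel e4
    funext j i'
    refine Fin.cases ?_ (fun j' => ?_) j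
    · exact h0 i'
    · by_cases hi : i' = i₁
      · rw [hi]; exact h2 j'
      · exact h1 j' i' hi

open Classical in
theorem main : S_CNT := by
  intro k p θ c τ hp hθ hθ1 hc hτ
  obtain ⟨q, rfl⟩ : ∃ q, p = q + 2 := ⟨p - 2, by omega⟩
  set κ : ℝ := (1 - (k + 1) * θ) / 2 with hκ
  have hκ0 : 0 < κ := by rw [hκ]; linarith
  set b : ℝ := κ * τ * c ^ (k + 1) with hb
  have hb0 : 0 < b := by positivity
  refine ⟨b / (4 * (q + 2)), κ * τ / (k + 1), b / 2, by positivity, by positivity, by positivity,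
    max 1 ⌈4 * (q + 2) * (k + 1) ^ 2 / b⌉₊, ?_⟩
  intro L hL X hX a T hT1 hT2 hD G hG v hv
  have hL1 : 1 ≤ L := (le_max_left _ _).trans hL
  have hL2 : 4 * (q + 2) * (k + 1) ^ 2 / b ≤ (L : ℝ) :=
    (Nat.le_ceil _).trans (by exact_mod_cast (le_max_right _ _).trans hL)
  have hL0 : (0 : ℝ) < L := by exact_mod_cast hL1
  have hXc : X.card ≤ L := by
    have := Finset.card_le_card hX
    rw [Int.card_Ico] at this
    omega
  -- the lower bound
  obtain ⟨v', hv'⟩ : ∃ v' : Fin (k + 1) → ℤ, v' = Fin.cons 0 v := ⟨_, rfl⟩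
  have hv'0 : v' 0 = 0 := by rw [hv']; rfl
  have hv's : ∀ j : Fin k, v' j.succ = v j := by intro j; rw [hv']; rfl
  obtain ⟨D, hDd⟩ : ∃ D : Finset ℤ, D = (Ico a (a + (T : ℤ))).filter
    (fun s => c * (L : ℝ) ^ (q + 2 - 1) ≤ (sums (q + 2) X s : ℝ)) := ⟨_, rfl⟩
  have hDc : (1 - θ) * T ≤ (D.card : ℝ) := by rw [hDd]; exact hD
  have hDs : D ⊆ Ico a (a + (T : ℤ)) := by rw [hDd]; exact Finset.filter_subset _ _
  obtain ⟨E, hEd⟩ : ∃ E : Finset ℤ, E = (Ico a (a + (T : ℤ))).filter (fun s => ∀ j, s + v' j ∈ D) := ⟨_, rfl⟩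
  have hEc : κ * T ≤ (E.card : ℝ) := by
    rw [hEd]
    refine E_card a T D hDs θ (κ * τ / (k + 1) * L) κ (by rw [hκ]; ring) hDc v' ?_ ?_
    · intro j
      refine Fin.cases ?_ (fun j' => ?_) j
      · rw [hv'0]; simp only [Int.cast_zero, abs_zero]; positivity
      · rw [hv's]; exact hv j'
    · have : (k + 1 : ℝ) * (κ * τ / (k + 1) * L) = κ * (τ * L) := by field_simp
      rw [this]
      exact mul_le_mul_of_nonneg_left hT1 hκ0.le
  have hZ := ZZ_card (q + 2) X v' hv'0 E (c * (L : ℝ) ^ (q + 1)) (by positivity) (by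
    intro s hs j
    rw [hEd, Finset.mem_filter] at hs
    have := hs.2 j
    rw [hDd, Finset.mem_filter] at this
    exact this.2)
  have hZ2 : b * (L : ℝ) ^ (1 + (q + 1) * (k + 1)) ≤ ((ZZ (q + 2) X v').card : ℝ) := by
    refine le_trans ?_ hZ
    calc b * (L : ℝ) ^ (1 + (q + 1) * (k + 1)) = (κ * (τ * L)) * (c * (L : ℝ) ^ (q + 1)) ^ (k + 1) := by
          rw [hb, mul_pow, ← pow_mul, pow_add, pow_one]; ring
      _ ≤ (κ * T) * (c * (L : ℝ) ^ (q + 1)) ^ (k + 1) := by
          gcongr
      _ ≤ _ := by gcongr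
  -- the bad tuples
  obtain ⟨S, hS⟩ : ∃ S : Finset (Fin (k + 1) → ℤ), S = (Fintype.piFinset (fun _ : Fin (k + 1) => X)).filter
    (fun y => ¬ (Function.Injective y ∧ G y)) := ⟨_, rfl⟩
  have hSc : (S.card : ℝ) ≤ b / (4 * (q + 2)) * (L : ℝ) ^ (k + 1) + (k + 1) ^ 2 * (L : ℝ) ^ k := by
    have h1 : S ⊆ (Fintype.piFinset (fun _ : Fin (k + 1) => X)).filter (fun y => Function.Injective y ∧ ¬ G y) ∪
        (Fintype.piFinset (fun _ : Fin (k + 1) => X)).filter (fun y => ¬ Function.Injective y) := by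
      intro y hy
      rw [hS, Finset.mem_filter] at hy
      rw [Finset.mem_union, Finset.mem_filter, Finset.mem_filter]
      by_cases hi : Function.Injective y
      · left
        exact ⟨hy.1, hi, fun hG => hy.2 ⟨hi, hG⟩⟩
      · right
        exact ⟨hy.1, hi⟩
    have h2 := (Finset.card_le_card h1).trans (Finset.card_union_le _ _)
    have h3 := card_not_inj (k := k) X
    have h4 : (((Fintype.piFinset (fun _ : Fin (k + 1) => X)).filter
        (fun y => ¬ Function.Injective y)).card : ℝ) ≤ (k + 1) ^ 2 * (L : ℝ) ^ k := by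
      have h5 : ((Fintype.piFinset (fun _ : Fin (k + 1) => X)).filter
        (fun y => ¬ Function.Injective y)).card ≤ (k + 1) ^ 2 * L ^ k := by
        refine le_trans ?_ (h3.trans (Nat.mul_le_mul_left _ (Nat.pow_le_pow_left hXc k)))
        apply le_of_eq
        congr 1
      exact_mod_cast h5
    have h6 : (S.card : ℝ) ≤ (((Fintype.piFinset (fun _ : Fin (k + 1) => X)).filter
        (fun y => Function.Injective y ∧ ¬ G y)).card : ℝ) + (((Fintype.piFinset (fun _ : Fin (k + 1) => X)).filter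
        (fun y => ¬ Function.Injective y)).card : ℝ) := by exact_mod_cast h2
    linarith [hG]
  obtain ⟨Gd, hGd⟩ : ∃ Gd : Finset (Fin (k + 1) → Fin (q + 2) → ℤ), Gd = (ZZ (q + 2) X v').filter
    (fun x => ∀ i, Function.Injective (fun j => x j i) ∧ G (fun j => x j i)) := ⟨_, rfl⟩
  have hcov : (ZZ (q + 2) X v').card ≤ Gd.card + (q + 2) * (S.card * (X.card ^ (q + 1) * (X.card ^ q) ^ k)) := by
    have h1 : ZZ (q + 2) X v' ⊆ Gd ∪ (univ : Finset (Fin (q + 2))).biUnion
        (fun i => (ZZ (q + 2) X v').filter (fun x => (fun j => x j i) ∈ S)) := by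
      intro x hx
      rw [Finset.mem_union]
      by_cases hg : ∀ i, Function.Injective (fun j => x j i) ∧ G (fun j => x j i)
      · left
        rw [hGd, Finset.mem_filter]
        exact ⟨hx, hg⟩
      · right
        push Not at hg
        obtain ⟨i, hi⟩ := hg
        rw [Finset.mem_biUnion]
        refine ⟨i, Finset.mem_univ _, ?_⟩
        rw [Finset.mem_filter]
        refine ⟨hx, ?_⟩
        rw [hS, Finset.mem_filter, Fintype.mem_piFinset]
        refine ⟨fun j => ?_, fun h => hi h.1 h.2⟩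
        unfold ZZ at hx
        rw [Finset.mem_filter] at hx
        simp only [Fintype.mem_piFinset] at hx
        exact hx.1 j i
    refine (Finset.card_le_card h1).trans ((Finset.card_union_le _ _).trans ?_)
    refine add_le_add le_rfl (Finset.card_biUnion_le.trans ?_)
    refine (Finset.sum_le_sum fun i _ => card_bad X v' i S).trans ?_
    rw [Finset.sum_const, Finset.card_univ, Fintype.card_fin, smul_eq_mul]
  -- the good ones
  have hgood : Gd.card ≤ ((Fintype.piFinset (fun _ : Fin (q + 2) => Fintype.piFinset (fun _ : Fin k =>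
          Ioo (-(L : ℤ)) L))).filter (Sol (q + 2) X G v)).card * L ^ (q + 2) := by
    have h1 : Gd.card ≤ ((Fintype.piFinset (fun _ : Fin (q + 2) => Fintype.piFinset (fun _ : Fin k =>
          Ioo (-(L : ℤ)) L))).filter (Sol (q + 2) X G v) ×ˢ Fintype.piFinset (fun _ : Fin (q + 2) => X)).card := by
      apply Finset.card_le_card_of_injOn (fun x => ((fun i j => x (Fin.succ j) i - x 0 i), x 0))
      · intro x hx
        rw [Finset.mem_coe, hGd, Finset.mem_filter] at hx
        obtain ⟨hx, hg⟩ := hx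
        unfold ZZ at hx
        rw [Finset.mem_filter] at hx
        simp only [Fintype.mem_piFinset] at hx
        rw [Finset.mem_coe, Finset.mem_product]
        refine ⟨?_, ?_⟩
        · rw [Finset.mem_filter]
          refine ⟨?_, ?_, ?_⟩
          · rw [Fintype.mem_piFinset]
            intro i
            rw [Fintype.mem_piFinset]
            intro j
            dsimp only
            have e1 := Finset.mem_Ico.1 (hX (hx.1 j.succ i))
            have e2 := Finset.mem_Ico.1 (hX (hx.1 0 i))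
            rw [Finset.mem_Ioo]
            omega
          · intro j
            dsimp only
            rw [Finset.sum_sub_distrib, hx.2 j.succ, hv's]
            ring
          · intro i
            refine ⟨fun j => x j i, fun j => hx.1 j i, (hg i).1, (hg i).2, fun j => rfl⟩
        · rw [Fintype.mem_piFinset]
          intro i
          exact hx.1 0 i
      · intro x _ x' _ h
        simp only [Prod.mk.injEq] at h
        obtain ⟨h1, h2⟩ := h
        funext j i
        refine Fin.cases ?_ (fun j' => ?_) j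
        · exact congrFun h2 i
        · have e1 := congrFun (congrFun h1 i) j'
          have e2 := congrFun h2 i
          linarith
    refine h1.trans ?_
    rw [Finset.card_product]
    apply Nat.mul_le_mul_left
    rw [Fintype.card_piFinset, Finset.prod_const, Finset.card_univ, Fintype.card_fin]
    exact Nat.pow_le_pow_left hXc _
  -- conclusion
  have hbadR : ((q + 2 : ℕ) : ℝ) * (S.card * (X.card ^ (q + 1) * (X.card ^ q) ^ k)) ≤
      b / 2 * (L : ℝ) ^ (1 + (q + 1) * (k + 1)) := by
    have hXR : (X.card : ℝ) ≤ L := by exact_mod_cast hXc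
    have hX0 : (0 : ℝ) ≤ X.card := by positivity
    calc ((q + 2 : ℕ) : ℝ) * (S.card * (X.card ^ (q + 1) * (X.card ^ q) ^ k))
        ≤ ((q + 2 : ℕ) : ℝ) * ((b / (4 * (q + 2)) * (L : ℝ) ^ (k + 1) + (k + 1) ^ 2 * (L : ℝ) ^ k) *
          ((L : ℝ) ^ (q + 1) * ((L : ℝ) ^ q) ^ k)) := by
          gcongr
      _ = b / 4 * (L : ℝ) ^ (1 + (q + 1) * (k + 1)) + ((q + 2) * (k + 1) ^ 2) * (L : ℝ) ^ ((q + 1) * (k + 1)) := by
          have e1 : (L : ℝ) ^ (k + 1) * ((L : ℝ) ^ (q + 1) * ((L : ℝ) ^ q) ^ k) = (L : ℝ) ^ (1 + (q + 1) * (k + 1)) := by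
            rw [← pow_mul, ← pow_add, ← pow_add]; congr 1; ring
          have e2 : (L : ℝ) ^ k * ((L : ℝ) ^ (q + 1) * ((L : ℝ) ^ q) ^ k) = (L : ℝ) ^ ((q + 1) * (k + 1)) := by
            rw [← pow_mul, ← pow_add, ← pow_add]; congr 1; ring
          rw [← e1, ← e2]
          push_cast
          field_simp
      _ ≤ b / 4 * (L : ℝ) ^ (1 + (q + 1) * (k + 1)) + (b / 4 * L) * (L : ℝ) ^ ((q + 1) * (k + 1)) := by
          have h7 : ((q : ℝ) + 2) * (k + 1) ^ 2 ≤ b / 4 * L := by
            rw [div_le_iff₀ hb0] at hL2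
            linarith
          exact add_le_add le_rfl (mul_le_mul_of_nonneg_right h7 (by positivity))
      _ = b / 2 * (L : ℝ) ^ (1 + (q + 1) * (k + 1)) := by
          rw [pow_add, pow_one]; ring
  have hcovR : ((ZZ (q + 2) X v').card : ℝ) ≤ (Gd.card : ℝ) +
      ((q + 2 : ℕ) : ℝ) * (S.card * (X.card ^ (q + 1) * (X.card ^ q) ^ k)) := by exact_mod_cast hcov
  have hgoodR : (Gd.card : ℝ) ≤ ((((Fintype.piFinset (fun _ : Fin (q + 2) => Fintype.piFinset (fun _ : Fin k =>
          Ioo (-(L : ℤ)) L))).filter (Sol (q + 2) X G v)).card : ℕ) : ℝ) * (L : ℝ) ^ (q + 2) := by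
    exact_mod_cast hgood
  have hfin : b / 2 * (L : ℝ) ^ ((q + 2 - 1) * k) * (L : ℝ) ^ (q + 2) ≤
      ((((Fintype.piFinset (fun _ : Fin (q + 2) => Fintype.piFinset (fun _ : Fin k =>
          Ioo (-(L : ℤ)) L))).filter (Sol (q + 2) X G v)).card : ℕ) : ℝ) * (L : ℝ) ^ (q + 2) := by
    refine le_trans ?_ hgoodR
    have e : (L : ℝ) ^ ((q + 2 - 1) * k) * (L : ℝ) ^ (q + 2) = (L : ℝ) ^ (1 + (q + 1) * (k + 1)) := by
      rw [← pow_add]; congr 1
      have : q + 2 - 1 = q + 1 := by omega
      rw [this]; ring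
    rw [mul_assoc, e]
    linarith
  exact le_of_mul_le_mul_right hfin (by positivity)

end Pool.Agent.N327.SF_CNT
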